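import Pool.Agent.Run7.h47.SD.Iface
import Pool.Agent.W792.LL.Dia
import Pool.Agent.W918.LL.Opr

/-!
# Project SD of helper47: piece ANA (the expansion in the Wiener norm)
-/

set_option autoImplicit false

namespace Run7.h305.SDA

open MeasureTheory Filter Pool.Agent.W792.LL Pool.Agent.W792.WA Pool.Agent.N659.HB
open Pool.Agent.Run7.h47.SD
open scoped Topology

noncomputable section

theorem norm_dd (v : ℝ) : ‖dd v‖ ≤ 1 := by
  unfold dd
  rw [norm_div, norm_one]
  refine div_le_one_of_le₀ ?_ (norm_nonneg _)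
  have := Complex.abs_im_le_norm ((v : ℂ) - Complex.I)
  simpa using this

variable {d : ℕ}

theorem dl_ap (x : Fin d → ℤ) : (dl (0 : Fin d → ℤ)) x = if x = 0 then (1 : ℂ) else 0 := by
  unfold dl
  rw [lp.single_apply, Pi.single_apply]

/-- The Fourier coefficient is the value of the operator. -/
theorem opr_dl (m : C(UnitAddTorus (Fin d), ℂ)) (x : Fin d → ℤ) :
    opr m (dl 0) x = UnitAddTorus.mFourierCoeff m x := by
  obtain ⟨h, -⟩ := Pool.Agent.W918.LL.main d m m
  rw [(h (dl 0) x).2, tsum_eq_single 0]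
  · rw [dl_ap, if_pos rfl, mul_one, sub_zero]
  · intro y hy
    rw [dl_ap, if_neg hy, mul_zero]

/-- The Fourier coefficient as a continuous linear map. -/
theorem exists_fc (x : Fin d → ℤ) : ∃ L : C(UnitAddTorus (Fin d), ℂ) →L[ℂ] ℂ,
    ∀ m : C(UnitAddTorus (Fin d), ℂ), L m = UnitAddTorus.mFourierCoeff m x := by
  let L₀ : C(UnitAddTorus (Fin d), ℂ) →ₗ[ℂ] ℂ :=
    { toFun := fun m => UnitAddTorus.mFourierCoeff m x
      map_add' := by
        intro m m'
        obtain ⟨-, -, -, h, -⟩ := Pool.Agent.W918.LL.main d m m'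
        rw [← opr_dl, ← opr_dl, ← opr_dl, h]
        rfl
      map_smul' := by
        intro a m
        obtain ⟨-, -, -, -, h, -⟩ := Pool.Agent.W918.LL.main d m m
        rw [← opr_dl, ← opr_dl, h]
        rfl }
  refine ⟨L₀.mkContinuous 1 fun m => ?_, fun m => rfl⟩
  obtain ⟨-, -, -, -, -, -, h, -⟩ := Pool.Agent.W918.LL.main d m m
  rw [one_mul]
  exact h x

theorem fc_ct (c : ℂ) (x : Fin d → ℤ) :
    UnitAddTorus.mFourierCoeff (ct d c) x = if x = 0 then c else 0 := by
  obtain ⟨-, -, -, -, h, h1, -⟩ := Pool.Agent.W918.LL.main d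
    (1 : C(UnitAddTorus (Fin d), ℂ)) (1 : C(UnitAddTorus (Fin d), ℂ))
  have e : ct d c = c • (1 : C(UnitAddTorus (Fin d), ℂ)) := by
    ext k
    simp [ct]
  rw [e, ← opr_dl, h c, h1]
  show c * (dl (0 : Fin d → ℤ)) x = _
  rw [dl_ap]
  split_ifs <;> simp

/-- The term of order zero. -/
theorem ter_zero (ν : Measure ℝ) [IsProbabilityMeasure ν] (X : C(UnitAddTorus (Fin d), ℂ))
    (x : Fin d → ℤ) :
    ∫ v, ter X 0 v (dl 0) x ∂(Pn ν (Fin d → ℤ)) = if x = 0 then ∫ v, dd v ∂ν else 0 := by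
  have h1 : ∀ v, ter X 0 v (dl 0) x = dd (v x) * (if x = 0 then (1 : ℂ) else 0) := by
    intro v
    unfold ter Pool.Agent.Run7.h47.SD.DD
    rw [pow_zero, mul_one, (Pool.Agent.W792.LL.DiaP.main (Fin d → ℤ) (fun x => dd (v x))
      (fun x => norm_dd (v x))).1, dl_ap]
  simp only [h1]
  split_ifs with hx
  · simp only [mul_one]
    have h2 := measurePreserving_eval_infinitePi (fun _ : Fin d → ℤ => ν) x
    have h3 : Measurable dd := by
      unfold dd
      fun_prop
    have h4 := integral_map (μ := Measure.infinitePi fun _ : Fin d → ℤ => ν)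
      h2.measurable.aemeasurable (f := dd) h3.aestronglyMeasurable
    rw [h2.map_eq] at h4
    exact h4.symm
  · simp

theorem seg_open (δ : ℝ) : IsOpen {t : ℂ | ∃ s : ℝ, 0 ≤ s ∧ s ≤ 1 ∧ ‖t - s‖ < δ} := by
  have : {t : ℂ | ∃ s : ℝ, 0 ≤ s ∧ s ≤ 1 ∧ ‖t - s‖ < δ} =
      ⋃ s ∈ Set.Icc (0 : ℝ) 1, {t : ℂ | ‖t - (s : ℂ)‖ < δ} := by
    ext t
    simp only [Set.mem_ofPred_eq, Set.mem_iUnion, Set.mem_Icc, exists_prop, and_assoc]
  rw [this]
  refine isOpen_biUnion fun s _ => ?_
  exact isOpen_lt (by fun_prop) continuous_const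

theorem seg_convex (δ : ℝ) : Convex ℝ {t : ℂ | ∃ s : ℝ, 0 ≤ s ∧ s ≤ 1 ∧ ‖t - s‖ < δ} := by
  rintro t ⟨s, h0, h1, h⟩ t' ⟨s', h0', h1', h'⟩ a b ha hb hab
  refine ⟨a * s + b * s', by positivity, ?_, ?_⟩
  · nlinarith
  · have e : a • t + b • t' - ((a * s + b * s' : ℝ) : ℂ) = a • (t - s) + b • (t' - s') := by
      simp only [Complex.real_smul]
      push_cast
      ring
    rw [e]
    refine (norm_add_le _ _).trans_lt ?_
    rw [norm_smul, norm_smul, Real.norm_of_nonneg ha, Real.norm_of_nonneg hb]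
    rcases eq_or_lt_of_le ha with rfl | ha'
    · have : b = 1 := by linarith
      subst this
      simpa using h'
    · have e1 := mul_lt_mul_of_pos_left h ha'
      have e2 := mul_le_mul_of_nonneg_left h'.le hb
      have e3 : a * δ + b * δ = δ := by rw [← add_mul, hab, one_mul]
      linarith

theorem t_ANA : S_KER → S_RES → S_ANC → S_ANA := by
  intro hK hR hA ν _ d A C₁ B c X hML hc hX hW hB hAB
  set Y : C(UnitAddTorus (Fin d), ℂ) := X + ct d Complex.I with hY
  obtain ⟨δ, hδ, hdiff⟩ := hA ν d c X hc hX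
  have hA0 := hML.pos
  have hAB0 : 0 ≤ A * B := by positivity
  -- the coefficients
  set a : ℕ → (Fin d → ℤ) → ℂ := fun n x => ∫ v, ter Y n v (dl 0) x ∂(Pn ν (Fin d → ℤ)) with ha
  have haF : ∀ (n : ℕ) (F : Finset (Fin d → ℤ)), ∑ x ∈ F, ‖a n x‖ ≤ A * (A * B) ^ n := by
    intro n F
    refine (hK ν d A C₁ B Y hML hW n F).trans (le_of_eq ?_)
    rw [mul_pow, pow_succ]
    ring
  have hax : ∀ n x, ‖a n x‖ ≤ A * (A * B) ^ n := by
    intro n x
    have := haF n {x}
    rwa [Finset.sum_singleton] at this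
  -- the identity theorem
  have key : ∀ x, UnitAddTorus.mFourierCoeff (GX ν X) x = ∑' n : ℕ, (-1 : ℂ) ^ n * a n x := by
    intro x
    obtain ⟨L, hL⟩ := exists_fc (d := d) x
    set R : ℝ := 2 / (1 + A * B) with hRd
    have hR1 : 1 < R := by
      rw [hRd, lt_div_iff₀ (by positivity)]
      linarith
    have hRAB : R * (A * B) < 1 := by
      rw [hRd, div_mul_eq_mul_div, div_lt_one (by positivity)]
      linarith
    set O : Set ℂ := {t : ℂ | ∃ s : ℝ, 0 ≤ s ∧ s ≤ 1 ∧ ‖t - s‖ < δ} with hO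
    set U : Set ℂ := O ∩ Metric.ball 0 R with hU
    have hUo : IsOpen U := (seg_open δ).inter Metric.isOpen_ball
    have hUc : IsPreconnected U := ((seg_convex δ).inter (convex_ball _ _)).isPreconnected
    set f : ℂ → ℂ := fun t => UnitAddTorus.mFourierCoeff (GX ν (t • Y - ct d Complex.I)) x with hf
    set g : ℂ → ℂ := fun t => ∑' n : ℕ, (-t) ^ n * a n x with hg
    have hfd : DifferentiableOn ℂ f U := by
      have h1 : DifferentiableOn ℂ (fun t => L (GX ν (t • Y - ct d Complex.I))) O :=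
        L.differentiable.comp_differentiableOn hdiff
      refine (h1.mono Set.inter_subset_left).congr fun t _ => ?_
      rw [hL]
    have hgd : DifferentiableOn ℂ g U := by
      refine Complex.differentiableOn_tsum_of_summable_norm (u := fun n => A * (R * (A * B)) ^ n)
        ((summable_geometric_of_lt_one (by positivity) hRAB).mul_left A) (fun n => ?_) hUo
        (fun n t ht => ?_)
      · fun_prop
      · have ht2 : ‖t‖ < R := by simpa using ht.2
        rw [norm_mul, norm_pow, norm_neg]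
        calc ‖t‖ ^ n * ‖a n x‖ ≤ R ^ n * (A * (A * B) ^ n) := by
              gcongr
              exact hax n x
          _ = A * (R * (A * B)) ^ n := by
              rw [mul_pow R]
              ring
    have h0 : (0 : ℂ) ∈ U := ⟨⟨0, le_rfl, zero_le_one, by simpa using hδ⟩, by
      simpa using (by linarith : (0 : ℝ) < R)⟩
    have h1 : (1 : ℂ) ∈ U := ⟨⟨1, zero_le_one, le_rfl, by simpa using hδ⟩, by simpa using hR1⟩
    have hev : f =ᶠ[𝓝 0] g := by
      have : ∀ᶠ t : ℂ in 𝓝 0, ‖t‖ * ‖Y‖ < 1 / 2 := by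
        have hcont : Continuous fun t : ℂ => ‖t‖ * ‖Y‖ := by fun_prop
        have := hcont.tendsto 0
        simp only [norm_zero, zero_mul] at this
        exact this.eventually_lt_const (by norm_num)
      filter_upwards [this] with t ht
      exact (hR ν d Y t ht.le x).tsum_eq.symm
    have hfg := (hfd.analyticOnNhd hUo).eqOn_of_preconnected_of_eventuallyEq
      (hgd.analyticOnNhd hUo) hUc h0 hev h1
    have e1 : (1 : ℂ) • Y - ct d Complex.I = X := by
      rw [one_smul, hY, add_sub_cancel_right]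
    simp only [hf, hg] at hfg
    rw [e1] at hfg
    exact hfg
  -- the sum without the first term
  have hsum : ∀ x, Summable fun n : ℕ => ‖a (n + 1) x‖ := by
    intro x
    refine Summable.of_nonneg_of_le (fun n => norm_nonneg _) (fun n => hax (n + 1) x) ?_
    have h2 := (summable_geometric_of_lt_one hAB0 hAB).mul_left (A * (A * B))
    refine h2.congr fun n => ?_
    rw [pow_succ]
    ring
  have hcoef : ∀ x, ‖UnitAddTorus.mFourierCoeff (GX ν X - ct d (∫ v, dd v ∂ν)) x‖ ≤
      ∑' n : ℕ, ‖a (n + 1) x‖ := by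
    intro x
    obtain ⟨L, hL⟩ := exists_fc (d := d) x
    have h1 : Summable fun n : ℕ => (-1 : ℂ) ^ n * a n x := by
      rw [← summable_nat_add_iff 1]
      refine Summable.of_norm ((hsum x).congr fun n => ?_)
      rw [norm_mul, norm_pow, norm_neg, norm_one, one_pow, one_mul]
    have h2 : UnitAddTorus.mFourierCoeff (GX ν X - ct d (∫ v, dd v ∂ν)) x =
        ∑' n : ℕ, (-1 : ℂ) ^ (n + 1) * a (n + 1) x := by
      rw [← hL, map_sub, hL, hL, key x, fc_ct, h1.tsum_eq_zero_add]
      have h3 : a 0 x = if x = 0 then ∫ v, dd v ∂ν else 0 := ter_zero ν Y x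
      rw [h3, pow_zero, one_mul, add_sub_cancel_left]
    rw [h2]
    have h4 : (fun n : ℕ => ‖(-1 : ℂ) ^ (n + 1) * a (n + 1) x‖) = fun n => ‖a (n + 1) x‖ := by
      funext n
      rw [norm_mul, norm_pow, norm_neg, norm_one, one_pow, one_mul]
    have h5 := norm_tsum_le_tsum_norm (f := fun n : ℕ => (-1 : ℂ) ^ (n + 1) * a (n + 1) x)
      (by rw [h4]; exact hsum x)
    rwa [h4] at h5
  intro F
  have hgeo : HasSum (fun n : ℕ => A * (A * B) ^ (n + 1)) (A * (A * B) / (1 - A * B)) := by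
    have h2 := (hasSum_geometric_of_lt_one hAB0 hAB).mul_left (A * (A * B))
    rw [← div_eq_mul_inv] at h2
    have h3 : (fun n : ℕ => A * (A * B) ^ (n + 1)) = fun n => A * (A * B) * (A * B) ^ n := by
      funext n
      rw [pow_succ]
      ring
    rw [h3]
    exact h2
  calc ∑ x ∈ F, ‖UnitAddTorus.mFourierCoeff (GX ν X - ct d (∫ v, dd v ∂ν)) x‖
      ≤ ∑ x ∈ F, ∑' n : ℕ, ‖a (n + 1) x‖ := Finset.sum_le_sum fun x _ => hcoef x
    _ = ∑' n : ℕ, ∑ x ∈ F, ‖a (n + 1) x‖ := (Summable.tsum_finsetSum fun x _ => hsum x).symm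
    _ ≤ ∑' n : ℕ, A * (A * B) ^ (n + 1) :=
        Summable.tsum_le_tsum (fun n => haF (n + 1) F) (summable_sum fun x _ => hsum x)
          hgeo.summable
    _ = _ := hgeo.tsum_eq

end

end Run7.h305.SDA
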