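import Pool.Agent.Run7.h47.SD.Iface

/-!
# Project SD of helper47: piece ANC (the symbol along the segment is analytic)
-/

set_option autoImplicit false

namespace Run7.h305.SD

open MeasureTheory Filter Pool.Agent.W792.LL Pool.Agent.W792.WA Pool.Agent.N659.HB
open Pool.Agent.Run7.h47.SD
open scoped Topology

noncomputable section

theorem toC_ap {X : Type} [TopologicalSpace X] {f : X → ℂ} (h : Continuous f) (x : X) :
    toC f x = f x := by
  unfold toC
  rw [dif_pos h]
  rfl

theorem ct_ap (d : ℕ) (c : ℂ) (k : UnitAddTorus (Fin d)) : ct d c k = c := rfl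

variable {d : ℕ}

theorem den_ne {x : ℂ} (h : x.im ≤ 0) : x - Complex.I ≠ 0 := by
  intro h0
  have := congrArg Complex.im h0
  simp at this
  linarith

theorem cont_cay (S : C(UnitAddTorus (Fin d), ℂ)) (h : ∀ k, (S k).im ≤ 0) :
    Continuous fun k => cayx (S k) 0 := by
  unfold cayx
  refine Continuous.div (by fun_prop) (by fun_prop) fun k => ?_
  simpa using den_ne (h k)

theorem unit_den (S : C(UnitAddTorus (Fin d), ℂ)) (h : ∀ k, (S k).im ≤ 0) :
    IsUnit (S - ct d Complex.I) := by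
  rw [ContinuousMap.isUnit_iff_forall_ne_zero]
  intro k
  rw [ContinuousMap.sub_apply, ct_ap]
  exact den_ne (h k)

/-- The Cayley transform of a symbol. -/
theorem cay_eq (S : C(UnitAddTorus (Fin d), ℂ)) (h : ∀ k, (S k).im ≤ 0) :
    (toC fun k => cayx (S k) 0) = (S + ct d Complex.I) * Ring.inverse (S - ct d Complex.I) := by
  ext k
  rw [toC_ap (cont_cay S h), ContinuousMap.mul_apply, ContinuousMap.add_apply, ct_ap]
  have h1 : (S - ct d Complex.I) k * (Ring.inverse (S - ct d Complex.I)) k = 1 := by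
    rw [← ContinuousMap.mul_apply, Ring.mul_inverse_cancel _ (unit_den S h)]
    rfl
  rw [ContinuousMap.sub_apply, ct_ap] at h1
  have h2 := den_ne (h k)
  unfold cayx
  simp only [Complex.ofReal_zero, add_zero]
  rw [div_eq_mul_inv]
  congr 1
  exact inv_eq_of_mul_eq_one_right h1

theorem GX_eq (ν : Measure ℝ) [IsProbabilityMeasure ν] (S : C(UnitAddTorus (Fin d), ℂ))
    (h : ∀ k, (S k).im ≤ 0) :
    GX ν S = (1 / (2 * Complex.I)) • (((toC fun k => cayx (S k) 0) - 1) *
      (1 + ((toC fun k => cayx (S k) 0) - 1) * csym ν (toC fun k => cayx (S k) 0))) := by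
  ext k
  unfold GX
  have hc := cont_cay S h
  rw [toC_ap (by fun_prop)]
  simp only [ContinuousMap.smul_apply, ContinuousMap.mul_apply, ContinuousMap.sub_apply,
    ContinuousMap.add_apply, ContinuousMap.one_apply, smul_eq_mul]
  rw [toC_ap hc]
  ring

/-- The segment. -/
def seg (δ : ℝ) : Set ℂ := {t : ℂ | ∃ s : ℝ, 0 ≤ s ∧ s ≤ 1 ∧ ‖t - s‖ < δ}

theorem seg_open (δ : ℝ) : IsOpen (seg δ) := by
  have : seg δ = ⋃ s ∈ Set.Icc (0 : ℝ) 1, {t : ℂ | ‖t - (s : ℂ)‖ < δ} := by
    ext t
    simp only [seg, Set.mem_ofPred_eq, Set.mem_iUnion, Set.mem_Icc, exists_prop, and_assoc]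
  rw [this]
  refine isOpen_biUnion fun s _ => ?_
  exact isOpen_lt (by fun_prop) continuous_const

theorem t_ANC : S_HOLC → S_CX → S_ANC := by
  intro hH hX ν _ d c X hc hXc
  set Y : C(UnitAddTorus (Fin d), ℂ) := X + ct d Complex.I with hY
  set η : ℝ := min c 1 / 2 with hη
  have hη0 : 0 < η := by positivity
  set δ : ℝ := η / (‖Y‖ + 1) with hδ
  have hδ0 : 0 < δ := by positivity
  have hδY : δ * ‖Y‖ ≤ η := by
    rw [hδ, div_mul_eq_mul_div, div_le_iff₀ (by positivity)]
    nlinarith [norm_nonneg Y]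
  refine ⟨δ, hδ0, ?_⟩
  set St : ℂ → C(UnitAddTorus (Fin d), ℂ) := fun t => t • Y - ct d Complex.I with hSt
  have hap : ∀ t k, St t k = t * (X k + Complex.I) - Complex.I := by
    intro t k
    simp only [hSt, hY, ContinuousMap.sub_apply, ContinuousMap.smul_apply, ContinuousMap.add_apply,
      ct_ap, smul_eq_mul]
  have him : ∀ t ∈ seg δ, ∀ k, (St t k).im ≤ -η := by
    rintro t ⟨s, hs0, hs1, hts⟩ k
    have e1 : St t k = (s : ℂ) * (X k + Complex.I) - Complex.I + (t - s) * Y k := by
      rw [hap, hY, ContinuousMap.add_apply, ct_ap]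
      ring
    rw [e1, Complex.add_im]
    have e2 : ((s : ℂ) * (X k + Complex.I) - Complex.I).im = s * ((X k).im + 1) - 1 := by
      simp
    have e3 : ((t - s) * Y k).im ≤ δ * ‖Y‖ := by
      refine (le_abs_self _).trans ((Complex.abs_im_le_norm _).trans ?_)
      rw [norm_mul]
      exact mul_le_mul hts.le (Y.norm_coe_le_norm k) (norm_nonneg _) hδ0.le
    rw [e2]
    have e4 : (X k).im ≤ -(2 * η) := by
      have := hXc k
      have h1 : min c 1 ≤ c := min_le_left _ _
      rw [hη]
      linarith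
    have e5 : 2 * η ≤ 1 := by
      have h1 : min c 1 ≤ 1 := min_le_right _ _
      rw [hη]
      linarith
    nlinarith
  have hbd : ∀ t ∈ seg δ, ∀ k, ‖St t k‖ ≤ (1 + δ) * ‖Y‖ + 1 := by
    rintro t ⟨s, hs0, hs1, hts⟩ k
    have h1 : ‖t‖ ≤ 1 + δ := by
      have h2 : ‖t‖ ≤ ‖t - s‖ + ‖(s : ℂ)‖ := by
        have := norm_add_le (t - s) (s : ℂ)
        rwa [sub_add_cancel] at this
      rw [Complex.norm_real, Real.norm_of_nonneg hs0] at h2
      linarith
    have h2 : St t k = t * Y k - Complex.I := by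
      rw [hap, hY, ContinuousMap.add_apply, ct_ap]
    rw [h2]
    refine (norm_sub_le _ _).trans ?_
    rw [norm_mul, Complex.norm_I]
    have := mul_le_mul h1 (Y.norm_coe_le_norm k) (norm_nonneg _) (by positivity)
    linarith
  obtain ⟨q, hq0, hq1, hq⟩ := hX.2.2.1 0 ((1 + δ) * ‖Y‖ + 1) η hη0
  have him0 : ∀ t ∈ seg δ, ∀ k, (St t k).im ≤ 0 := fun t ht k => (him t ht k).trans (by linarith)
  have hdS : Differentiable ℂ St := by
    intro t
    exact ((differentiableAt_id.smul_const Y).sub_const _)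
  set m : ℂ → C(UnitAddTorus (Fin d), ℂ) := fun t => toC fun k => cayx (St t k) 0 with hm
  have hdm : DifferentiableOn ℂ m (seg δ) := by
    have h1 : DifferentiableOn ℂ (fun t => (St t + ct d Complex.I) *
        Ring.inverse (St t - ct d Complex.I)) (seg δ) := by
      refine DifferentiableOn.mul ((hdS.add_const _).differentiableOn) ?_
      intro t ht
      have h2 : DifferentiableAt ℂ Ring.inverse (St t - ct d Complex.I) :=
        differentiableAt_inverse (unit_den _ (him0 t ht))
      exact (h2.comp t ((hdS t).sub_const _)).differentiableWithinAt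
    exact h1.congr fun t ht => cay_eq _ (him0 t ht)
  have hmb : ∀ t ∈ seg δ, ‖m t‖ ≤ q := by
    intro t ht
    rw [ContinuousMap.norm_le _ hq0]
    intro k
    simp only [hm]
    rw [toC_ap (cont_cay _ (him0 t ht))]
    exact hq _ 0 (hbd t ht k) (him t ht k) (by simp)
  obtain ⟨h1, -, -⟩ := hH ν d (seg δ) m q (seg_open δ) hq1 hdm hmb
  have h3 : DifferentiableOn ℂ (fun t => (m t - 1) * (1 + (m t - 1) * csym ν (m t))) (seg δ) :=
    (hdm.sub_const _).mul (((hdm.sub_const _).mul h1).const_add _)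
  have h2 : DifferentiableOn ℂ (fun t => (1 / (2 * Complex.I) : ℂ) • ((m t - 1) *
      (1 + (m t - 1) * csym ν (m t)))) (seg δ) := h3.const_smul (1 / (2 * Complex.I) : ℂ)
  exact h2.congr fun t ht => GX_eq ν _ (him0 t ht)

end

end Run7.h305.SD
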